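import Pool.Agent.R895.Poly.Repl

/-!
# Convex polygons from distinct unit vectors with sum zero
-/

set_option autoImplicit false

namespace Pool.Agent.R895.Poly

open Complex

/-- Scaling to integral coordinates. -/
theorem exists_scale {m : ℕ} (T : Finset ℂ) (hT : ∀ z ∈ T, KK m z) :
    ∃ D : ℕ, 0 < D ∧ ∀ z ∈ T, ∃ a b : ℤ, (D : ℂ) * z = a + b * th m := by
  classical
  induction T using Finset.induction_on with
  | empty => exact ⟨1, one_pos, by simp⟩
  | insert v T hv ih =>
    obtain ⟨D, hD, h⟩ := ih fun z hz => hT z (Finset.mem_insert_of_mem hz)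
    obtain ⟨x, y, hxy⟩ := hT v (Finset.mem_insert_self v T)
    refine ⟨D * (x.den * y.den), Nat.mul_pos hD (Nat.mul_pos x.den_pos y.den_pos), ?_⟩
    intro z hz
    rcases Finset.mem_insert.1 hz with rfl | hz
    · refine ⟨D * (x.num * y.den), D * (y.num * x.den), ?_⟩
      have hx : ((x.den : ℕ) : ℂ) * (x : ℂ) = (x.num : ℂ) := by
        have := x.den_mul_eq_num
        exact_mod_cast congrArg (fun q : ℚ => (q : ℂ)) this
      have hy : ((y.den : ℕ) : ℂ) * (y : ℂ) = (y.num : ℂ) := by
        have := y.den_mul_eq_num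
        exact_mod_cast congrArg (fun q : ℚ => (q : ℂ)) this
      rw [hxy]
      push_cast
      linear_combination (D : ℂ) * y.den * hx + (D : ℂ) * x.den * th m * hy
    · obtain ⟨a, b, hab⟩ := h z hz
      refine ⟨(x.den * y.den) * a, (x.den * y.den) * b, ?_⟩
      push_cast
      linear_combination (x.den : ℂ) * y.den * hab

/-- The sorted arguments of distinct unit vectors with sum zero. -/
theorem exists_args (T : Finset ℂ) (hT : ∀ z ∈ T, ‖z‖ = 1) {n : ℕ} (hn : T.card = n)
    (hs : ∑ z ∈ T, z = 0) :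
    ∃ f : Fin n → ℝ, StrictMono f ∧ (∀ l, -Real.pi < f l ∧ f l ≤ Real.pi) ∧
      (∀ l, exp (f l * I) ∈ T) ∧ ∑ l, exp (f l * I) = 0 := by
  classical
  have hexp : ∀ z ∈ T, exp (arg z * I) = z := by
    intro z hz
    have := norm_mul_exp_arg_mul_I z
    rwa [hT z hz, ofReal_one, one_mul] at this
  have hinj : Set.InjOn arg (T : Set ℂ) := by
    intro z hz w hw h
    rw [← hexp z hz, ← hexp w hw, h]
  have hA : (T.image arg).card = n := by
    rw [Finset.card_image_of_injOn hinj, hn]
  set f := (T.image arg).orderEmbOfFin hA with hf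
  have hmem : ∀ l, ∃ z ∈ T, arg z = f l := by
    intro l
    have := (T.image arg).orderEmbOfFin_mem hA l
    exact Finset.mem_image.1 this
  have hmem' : ∀ l, exp (f l * I) ∈ T := by
    intro l
    obtain ⟨z, hz, h⟩ := hmem l
    rw [← h, hexp z hz]
    exact hz
  refine ⟨f, f.strictMono, ?_, hmem', ?_⟩
  · intro l
    obtain ⟨z, hz, h⟩ := hmem l
    rw [← h]
    exact ⟨neg_pi_lt_arg z, arg_le_pi z⟩
  · have hinj2 : Function.Injective fun l => exp (f l * I) := by
      intro l k h
      have h' : exp (f l * I) = exp (f k * I) := h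
      obtain ⟨z, hz, h1⟩ := hmem l
      obtain ⟨w, hw, h2⟩ := hmem k
      rw [← h1, ← h2, hexp z hz, hexp w hw] at h'
      apply f.injective
      rw [← h1, ← h2, h']
    have himg : Finset.univ.image (fun l => exp (f l * I)) = T := by
      refine Finset.eq_of_subset_of_card_le ?_ ?_
      · intro z hz
        obtain ⟨l, -, rfl⟩ := Finset.mem_image.1 hz
        exact hmem' l
      · rw [Finset.card_image_of_injective _ hinj2, hn]
        simp
    rw [← himg, Finset.sum_image fun x _ y _ h => hinj2 h] at hs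
    exact hs

theorem pos_of {n : ℕ} (s : Fin n → ℝ) (hs : ∑ l, s l = 0) (A : Finset (Fin n))
    (h : ((∀ l ∈ A, 0 ≤ s l) ∧ ∃ l ∈ A, 0 < s l) ∨ ((∀ l, l ∉ A → s l ≤ 0) ∧ ∃ l, l ∉ A ∧ s l < 0)) :
    0 < ∑ l ∈ A, s l := by
  classical
  rcases h with ⟨h1, l, hl, h2⟩ | ⟨h1, l, hl, h2⟩
  · exact Finset.sum_pos' h1 ⟨l, hl, h2⟩
  · have h3 : ∑ l ∈ A, s l = ∑ l ∈ Aᶜ, -s l := by
      have h4 := Finset.sum_add_sum_compl A s
      rw [Finset.sum_neg_distrib]
      linarith
    rw [h3]
    exact Finset.sum_pos' (fun k hk => by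
      have := h1 k (Finset.mem_compl.1 hk)
      linarith) ⟨l, Finset.mem_compl.2 hl, by linarith⟩

theorem sin_sum {n : ℕ} (f : Fin n → ℝ) (hs : ∑ l, exp (f l * I) = 0) (i : Fin n) :
    ∑ l, Real.sin (f l - f i) = 0 := by
  have h1 : ∀ l, Real.sin (f l - f i) = (exp (-(f i * I)) * exp (f l * I)).im := by
    intro l
    rw [← exp_add]
    have : -((f i : ℂ) * I) + f l * I = ((f l - f i : ℝ) : ℂ) * I := by
      push_cast; ring
    rw [this, exp_ofReal_mul_I_im]
  rw [Finset.sum_congr rfl fun l _ => h1 l, ← im_sum, ← Finset.mul_sum, hs, mul_zero, zero_im]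

theorem sin_neg_of {x : ℝ} (h1 : Real.pi < x) (h2 : x < 2 * Real.pi) : Real.sin x < 0 := by
  have h3 : Real.sin (x - 2 * Real.pi) < 0 :=
    Real.sin_neg_of_neg_of_neg_pi_lt (by linarith) (by linarith)
  rwa [Real.sin_sub_two_pi] at h3

theorem sin_pos_of {x : ℝ} (h1 : -(2 * Real.pi) < x) (h2 : x < -Real.pi) : 0 < Real.sin x := by
  have h3 : 0 < Real.sin (x + 2 * Real.pi) :=
    Real.sin_pos_of_pos_of_lt_pi (by linarith) (by linarith)
  rwa [Real.sin_add_two_pi] at h3

/-- Later vertices lie to the left. -/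
theorem left_gt {n : ℕ} (f : Fin n → ℝ) (hf : StrictMono f)
    (hb : ∀ l, -Real.pi < f l ∧ f l ≤ Real.pi) (hs : ∑ l, exp (f l * I) = 0) {i j : Fin n}
    (hij : i.val + 1 < j.val) :
    0 < ∑ l ∈ Finset.univ.filter (fun l : Fin n => i ≤ l ∧ l < j), Real.sin (f l - f i) := by
  classical
  have hpi := Real.pi_pos
  set i' : Fin n := ⟨i.val + 1, by omega⟩ with hi'
  have hii' : i < i' := Fin.lt_def.2 (by simp [hi'])
  have hi'j : i' < j := Fin.lt_def.2 (by simpa [hi'] using hij)
  refine pos_of _ (sin_sum f hs i) _ ?_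
  by_cases h : f i' - f i < Real.pi ∧ ∀ l, l < j → f l - f i ≤ Real.pi
  · left
    refine ⟨?_, i', ?_, ?_⟩
    · intro l hl
      simp only [Finset.mem_filter, Finset.mem_univ, true_and] at hl
      refine Real.sin_nonneg_of_nonneg_of_le_pi ?_ (h.2 l hl.2)
      have := hf.monotone hl.1
      linarith
    · simp only [Finset.mem_filter, Finset.mem_univ, true_and]
      exact ⟨hii'.le, hi'j⟩
    · refine Real.sin_pos_of_pos_of_lt_pi ?_ h.1
      have := hf hii'
      linarith
  · right
    obtain ⟨l1, hl1, hl2⟩ : ∃ l1, l1 < j ∧ Real.pi ≤ f l1 - f i := by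
      by_contra hcon
      push Not at hcon
      exact h ⟨hcon i' hi'j, fun l hl => (hcon l hl).le⟩
    have hfi : f i ≤ 0 := by
      have := (hb l1).2
      linarith
    have key : ∀ l, l ∉ Finset.univ.filter (fun l : Fin n => i ≤ l ∧ l < j) →
        Real.sin (f l - f i) < 0 := by
      intro l hl
      simp only [Finset.mem_filter, Finset.mem_univ, true_and, not_and, not_lt] at hl
      by_cases hil : i ≤ l
      · have h1 := hl hil
        have h2 : f l1 < f l := hf (lt_of_lt_of_le hl1 h1)
        refine sin_neg_of (by linarith) ?_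
        have h3 := (hb l).2
        have h4 := (hb i).1
        linarith
      · push Not at hil
        refine Real.sin_neg_of_neg_of_neg_pi_lt ?_ ?_
        · have := hf hil
          linarith
        · have := (hb l).1
          linarith
    refine ⟨fun l hl => (key l hl).le, j, ?_, key j ?_⟩
    · simp
    · simp

/-- Earlier vertices lie to the left. -/
theorem left_lt {n : ℕ} (f : Fin n → ℝ) (hf : StrictMono f)
    (hb : ∀ l, -Real.pi < f l ∧ f l ≤ Real.pi) (hs : ∑ l, exp (f l * I) = 0) {i j : Fin n}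
    (hij : j < i) (hne : ¬ (j.val = 0 ∧ i.val + 1 = n)) :
    0 < -∑ l ∈ Finset.univ.filter (fun l : Fin n => j ≤ l ∧ l < i), Real.sin (f l - f i) := by
  classical
  have hpi := Real.pi_pos
  have hi0 : 0 < i.val := lt_of_le_of_lt (Nat.zero_le _) (Fin.lt_def.1 hij)
  set i' : Fin n := ⟨i.val - 1, by omega⟩ with hi'
  have hii' : i' < i := Fin.lt_def.2 (by simp [hi']; omega)
  have hji' : j ≤ i' := Fin.le_def.2 (by
    have := Fin.lt_def.1 hij
    simp [hi']; omega)
  have hsum : -∑ l ∈ Finset.univ.filter (fun l : Fin n => j ≤ l ∧ l < i), Real.sin (f l - f i) =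
      ∑ l ∈ (Finset.univ.filter (fun l : Fin n => j ≤ l ∧ l < i))ᶜ, Real.sin (f l - f i) := by
    have h4 := Finset.sum_add_sum_compl (Finset.univ.filter (fun l : Fin n => j ≤ l ∧ l < i))
      (fun l => Real.sin (f l - f i))
    rw [sin_sum f hs i] at h4
    linarith
  rw [hsum]
  refine pos_of _ (sin_sum f hs i) _ ?_
  by_cases h : -Real.pi < f i' - f i ∧ ∀ l, j ≤ l → -Real.pi ≤ f l - f i
  · right
    refine ⟨?_, i', ?_, ?_⟩
    · intro l hl
      simp only [Finset.mem_compl, Finset.mem_filter, Finset.mem_univ, true_and, not_not] at hl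
      refine Real.sin_nonpos_of_nonpos_of_neg_pi_le ?_ (h.2 l hl.1)
      have := hf hl.2
      linarith
    · simp only [Finset.mem_compl, Finset.mem_filter, Finset.mem_univ, true_and, not_not]
      exact ⟨hji', hii'⟩
    · refine Real.sin_neg_of_neg_of_neg_pi_lt ?_ h.1
      have := hf hii'
      linarith
  · left
    obtain ⟨l1, hl1, hl2⟩ : ∃ l1, j ≤ l1 ∧ f l1 - f i ≤ -Real.pi := by
      by_contra hcon
      push Not at hcon
      exact h ⟨hcon i' hji', fun l hl => (hcon l hl).le⟩
    have hfi : 0 < f i := by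
      have := (hb l1).1
      linarith
    have key : ∀ l, l < j ∨ i < l → 0 < Real.sin (f l - f i) := by
      intro l hl
      rcases hl with hl | hl
      · have h2 : f l < f l1 := hf (lt_of_lt_of_le hl hl1)
        refine sin_pos_of ?_ (by linarith)
        have h3 := (hb l).1
        have h4 := (hb i).2
        linarith
      · refine Real.sin_pos_of_pos_of_lt_pi ?_ ?_
        · have := hf hl
          linarith
        · have := (hb l).2
          linarith
    refine ⟨?_, ?_⟩
    · intro l hl
      simp only [Finset.mem_compl, Finset.mem_filter, Finset.mem_univ, true_and, not_and,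
        not_lt] at hl
      rcases lt_or_ge l j with h1 | h1
      · exact (key l (Or.inl h1)).le
      · rcases eq_or_lt_of_le (hl h1) with h2 | h2
        · rw [h2, sub_self, Real.sin_zero]
        · exact (key l (Or.inr h2)).le
    · by_cases hj0 : j.val = 0
      · have hin : i.val + 1 < n := by
          have := i.isLt
          have h5 : i.val + 1 ≠ n := fun h5 => hne ⟨hj0, h5⟩
          omega
        refine ⟨⟨i.val + 1, hin⟩, ?_, key _ (Or.inr (Fin.lt_def.2 (by simp)))⟩
        simp only [Finset.mem_compl, Finset.mem_filter, Finset.mem_univ, true_and, not_and, not_lt]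
        intro _
        exact Fin.le_def.2 (by simp)
      · refine ⟨⟨0, by omega⟩, ?_, key _ (Or.inl (Fin.lt_def.2 (by simp; omega)))⟩
        simp only [Finset.mem_compl, Finset.mem_filter, Finset.mem_univ, true_and, not_and, not_lt]
        intro h6
        exact absurd (Fin.le_def.1 h6) (by simp; omega)

end Pool.Agent.R895.Poly
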