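import Pool.Agent.R895.Poly.Units

/-!
# Replacing a sum of numbers of norm one by a sum of distinct numbers of norm one

If `a` and `w` have norm one, then so has `b = ((1 + w) a - 1) / (a - (1 + w̄))`, and
`1 = a + w a + b + w̄ b - a b`.
-/

set_option autoImplicit false

namespace Pool.Agent.R895.Poly

open Complex

variable {m : ℕ}

theorem UU.b {a w : ℂ} (ha : UU m a) (hw : UU m w) (hd : a - (1 + (starRingEnd ℂ) w) ≠ 0) :
    UU m (((1 + w) * a - 1) / (a - (1 + (starRingEnd ℂ) w))) := by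
  have hn : (1 + w) * a - 1 = a * (starRingEnd ℂ) (-(a - (1 + (starRingEnd ℂ) w))) := by
    rw [map_neg, map_sub, map_add, map_one, Complex.conj_conj]
    linear_combination ha.2
  refine ⟨KK.div (KK.sub (KK.mul (KK.add KK.one hw.1) ha.1) KK.one)
    (KK.sub ha.1 (KK.add KK.one (KK.conj hw.1))), ?_⟩
  have hd' : (starRingEnd ℂ) (a - (1 + (starRingEnd ℂ) w)) ≠ 0 := by
    intro h
    exact hd ((map_eq_zero _).1 h)
  rw [map_div₀, div_mul_div_comm, div_eq_one_iff_eq (mul_ne_zero hd hd'), hn, map_mul,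
    Complex.conj_conj, map_neg]
  linear_combination ((a - (1 + (starRingEnd ℂ) w)) * (starRingEnd ℂ) (a - (1 + (starRingEnd ℂ) w))) * ha.2

theorem sum_b {a w : ℂ} (hd : a - (1 + (starRingEnd ℂ) w) ≠ 0) :
    a + w * a + ((1 + w) * a - 1) / (a - (1 + (starRingEnd ℂ) w)) +
      (starRingEnd ℂ) w * (((1 + w) * a - 1) / (a - (1 + (starRingEnd ℂ) w))) -
      a * (((1 + w) * a - 1) / (a - (1 + (starRingEnd ℂ) w))) = 1 := by
  field_simp
  ring

theorem fin_b (c cb f : ℂ) (h : c * cb ≠ 1) : {a : ℂ | c * a - 1 = f * (a - cb)}.Finite := by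
  by_cases hc : c = f
  · refine Set.Finite.subset Set.finite_empty ?_
    intro a ha
    have ha' : c * a - 1 = f * (a - cb) := ha
    rw [← hc] at ha'
    exact absurd (by linear_combination ha') h
  · refine (quad_fin 0 (c - f) (f * cb - 1) (Or.inr (sub_ne_zero.2 hc))).subset ?_
    intro a ha
    have ha' : c * a - 1 = f * (a - cb) := ha
    show 0 * a ^ 2 + (c - f) * a + (f * cb - 1) = 0
    linear_combination ha'

theorem repl_one (hm : m ≠ 0) {w : ℂ} (hw : UU m w) (h1 : w ≠ 1) (h2 : w ≠ -1)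
    (hc : (1 + w) * (1 + (starRingEnd ℂ) w) ≠ 1) (F : Finset ℂ) :
    ∃ T : Finset ℂ, (∀ z ∈ T, UU m z) ∧ Disjoint T F ∧ T.card = 5 ∧ ∑ z ∈ T, z = 1 := by
  classical
  have hw0 := hw.ne_zero
  have hcj0 := hw.conj.ne_zero
  have hww : w * (starRingEnd ℂ) w = 1 := hw.2
  have hcj1 : (starRingEnd ℂ) w ≠ 1 := by
    intro h
    rw [h, mul_one] at hww
    exact h1 hww
  have hnorm : ‖w‖ = 1 := hw.norm
  have hc0 : (1 + w) ≠ 0 := by
    intro h
    exact h2 (by linear_combination h)
  have hc1 : (2 + w) ≠ 0 := by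
    intro h
    have : w = -2 := by linear_combination h
    rw [this] at hnorm
    norm_num at hnorm
  have hc2 : (1 + 2 * w) ≠ 0 := by
    intro h
    have : w = -1 / 2 := by linear_combination h / 2
    rw [this] at hnorm
    norm_num at hnorm
  have hb : ∀ f, {a : ℂ | (1 + w) * a - 1 = f * (a - (1 + (starRingEnd ℂ) w))}.Finite :=
    fun f => fin_b _ _ f hc
  -- the bad values
  have hfin : ({1 + (starRingEnd ℂ) w} ∪ {a : ℂ | 1 * a ^ 2 + -(1 + w + (1 + (starRingEnd ℂ) w)) * a + 1 = 0} ∪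
      {a : ℂ | w * a ^ 2 + -(w * (1 + (starRingEnd ℂ) w) + (1 + w)) * a + 1 = 0} ∪
      {a : ℂ | w ^ 2 * a ^ 2 + -(w ^ 2 * (1 + (starRingEnd ℂ) w) + (1 + w)) * a + 1 = 0} ∪
      {a : ℂ | (1 + w) * a - 1 = -1 * (a - (1 + (starRingEnd ℂ) w))} ∪
      {a : ℂ | (1 + w) * a - 1 = -w * (a - (1 + (starRingEnd ℂ) w))} ∪ {-1} ∪ {-(starRingEnd ℂ) w} ∪
      (⋃ f ∈ (F : Set ℂ), ({f} ∪ {(starRingEnd ℂ) w * f} ∪
        {a : ℂ | (1 + w) * a - 1 = f * (a - (1 + (starRingEnd ℂ) w))} ∪
        {a : ℂ | (1 + w) * a - 1 = (w * f) * (a - (1 + (starRingEnd ℂ) w))} ∪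
        {a : ℂ | (1 + w) * a ^ 2 + (f - 1) * a + -(f * (1 + (starRingEnd ℂ) w)) = 0})) : Set ℂ).Finite := by
    refine Set.Finite.union (Set.Finite.union (Set.Finite.union (Set.Finite.union (Set.Finite.union
      (Set.Finite.union (Set.Finite.union (Set.Finite.union (Set.finite_singleton _)
      (quad_fin _ _ _ (Or.inl one_ne_zero))) (quad_fin _ _ _ (Or.inl hw0)))
      (quad_fin _ _ _ (Or.inl (pow_ne_zero 2 hw0)))) (hb _)) (hb _)) (Set.finite_singleton _))
      (Set.finite_singleton _)) (Set.Finite.biUnion F.finite_toSet fun f _ => ?_)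
    exact Set.Finite.union (Set.Finite.union (Set.Finite.union (Set.Finite.union
      (Set.finite_singleton _) (Set.finite_singleton _)) (hb _)) (hb _))
      (quad_fin _ _ _ (Or.inl hc0))
  obtain ⟨a, ha, hbad⟩ := ((infinite_UU hm).sdiff hfin).nonempty
  have ha' : UU m a := ha
  simp only [Set.mem_union, Set.mem_iUnion, Set.mem_singleton_iff, Set.mem_ofPred_eq, not_or,
    exists_prop, not_exists, not_and, Finset.mem_coe] at hbad
  obtain ⟨⟨⟨⟨⟨⟨⟨⟨k1, k2⟩, k3⟩, k4⟩, k5⟩, k6⟩, k7⟩, k8⟩, kF⟩ := hbad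
  have hd : a - (1 + (starRingEnd ℂ) w) ≠ 0 := sub_ne_zero.2 k1
  have hbU := UU.b ha' hw hd
  have hsum := sum_b hd
  set b := ((1 + w) * a - 1) / (a - (1 + (starRingEnd ℂ) w)) with hbdef
  have hbe : (1 + w) * a - 1 = b * (a - (1 + (starRingEnd ℂ) w)) := by
    rw [hbdef, div_mul_cancel₀ _ hd]
  have ha0 := ha'.ne_zero
  have hb0 := hbU.ne_zero
  have n12 : a ≠ w * a := by
    intro h
    exact h1 (mul_right_cancel₀ ha0 (by rw [one_mul]; exact h.symm))
  have n13 : a ≠ b := by
    intro h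
    rw [← h] at hbe
    exact k2 (by linear_combination -hbe)
  have n14 : a ≠ (starRingEnd ℂ) w * b := by
    intro h
    have h' : b = w * a := by rw [h, ← mul_assoc, hww, one_mul]
    rw [h'] at hbe
    exact k3 (by linear_combination -hbe)
  have n15 : a ≠ -(a * b) := by
    intro h
    have h' : b = -1 := by
      have : a * (b + 1) = 0 := by linear_combination h
      rcases mul_eq_zero.1 this with h3 | h3
      · exact absurd h3 ha0
      · linear_combination h3
    rw [h'] at hbe
    exact k5 hbe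
  have n23 : w * a ≠ b := by
    intro h
    rw [← h] at hbe
    exact k3 (by linear_combination -hbe)
  have n24 : w * a ≠ (starRingEnd ℂ) w * b := by
    intro h
    have h' : b = w ^ 2 * a := by
      calc b = (w * (starRingEnd ℂ) w) * b := by rw [hww, one_mul]
        _ = w * ((starRingEnd ℂ) w * b) := by ring
        _ = w ^ 2 * a := by rw [← h]; ring
    rw [h'] at hbe
    exact k4 (by linear_combination -hbe)
  have n25 : w * a ≠ -(a * b) := by
    intro h
    have h' : b = -w := by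
      have : a * (b + w) = 0 := by linear_combination h
      rcases mul_eq_zero.1 this with h3 | h3
      · exact absurd h3 ha0
      · linear_combination h3
    rw [h'] at hbe
    exact k6 hbe
  have n34 : b ≠ (starRingEnd ℂ) w * b := by
    intro h
    exact hcj1 (mul_right_cancel₀ hb0 (by rw [one_mul]; exact h.symm))
  have n35 : b ≠ -(a * b) := by
    intro h
    have : b * (a + 1) = 0 := by linear_combination h
    rcases mul_eq_zero.1 this with h3 | h3
    · exact absurd h3 hb0
    · exact k7 (by linear_combination h3)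
  have n45 : (starRingEnd ℂ) w * b ≠ -(a * b) := by
    intro h
    have : b * (a + (starRingEnd ℂ) w) = 0 := by linear_combination h
    rcases mul_eq_zero.1 this with h3 | h3
    · exact absurd h3 hb0
    · exact k8 (by linear_combination h3)
  refine ⟨{a, w * a, b, (starRingEnd ℂ) w * b, -(a * b)}, ?_, ?_, ?_, ?_⟩
  · intro z hz
    simp only [Finset.mem_insert, Finset.mem_singleton] at hz
    rcases hz with rfl | rfl | rfl | rfl | rfl
    · exact ha'
    · exact hw.mul ha'
    · exact hbU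
    · exact hw.conj.mul hbU
    · exact (ha'.mul hbU).neg
  · rw [Finset.disjoint_left]
    intro z hz hzF
    simp only [Finset.mem_insert, Finset.mem_singleton] at hz
    obtain ⟨⟨⟨⟨l1, l2⟩, l3⟩, l4⟩, l5⟩ := kF z hzF
    rcases hz with h | h | h | h | h
    · exact l1 h.symm
    · exact l2 (by rw [h, ← mul_assoc, mul_comm ((starRingEnd ℂ) w), hww, one_mul])
    · exact l3 (by rw [h]; exact hbe)
    · refine l4 ?_
      rw [h, ← mul_assoc, hww, one_mul]
      exact hbe
    · refine l5 ?_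
      rw [h]
      linear_combination a * hbe
  · rw [Finset.card_insert_of_notMem, Finset.card_insert_of_notMem, Finset.card_insert_of_notMem,
      Finset.card_insert_of_notMem, Finset.card_singleton]
    · simpa using n45
    · simp only [Finset.mem_insert, Finset.mem_singleton, not_or]
      exact ⟨n34, n35⟩
    · simp only [Finset.mem_insert, Finset.mem_singleton, not_or]
      exact ⟨n23, n24, n25⟩
    · simp only [Finset.mem_insert, Finset.mem_singleton, not_or]
      exact ⟨n12, n13, n14, n15⟩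
  · rw [Finset.sum_insert, Finset.sum_insert, Finset.sum_insert, Finset.sum_insert,
      Finset.sum_singleton]
    · linear_combination hsum
    · simpa using n45
    · simp only [Finset.mem_insert, Finset.mem_singleton, not_or]
      exact ⟨n34, n35⟩
    · simp only [Finset.mem_insert, Finset.mem_singleton, not_or]
      exact ⟨n23, n24, n25⟩
    · simp only [Finset.mem_insert, Finset.mem_singleton, not_or]
      exact ⟨n12, n13, n14, n15⟩

/-- The number `((m - 1) + 2θ) / (m + 1)` of norm one. -/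
theorem exists_w (hm : 3 ≤ m) : ∃ w : ℂ, UU m w ∧ w ≠ 1 ∧ w ≠ -1 ∧ (1 + w) * (1 + (starRingEnd ℂ) w) ≠ 1 ∧
    w + (starRingEnd ℂ) w = 2 * (m - 1) / (m + 1) := by
  have hm1 : ((m : ℂ) + 1) ≠ 0 := by
    have : ((m : ℂ) + 1) = ((m + 1 : ℕ) : ℂ) := by push_cast; ring
    rw [this]
    exact Nat.cast_ne_zero.2 (by omega)
  set w : ℂ := ((m - 1) + 2 * th m) / (m + 1) with hw
  have hcw : (starRingEnd ℂ) w = ((m - 1) - 2 * th m) / (m + 1) := by
    rw [hw, map_div₀, map_add, map_mul, conj_th, map_ofNat]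
    simp only [map_sub, map_add, map_natCast, map_one]
    ring
  have hww : w * (starRingEnd ℂ) w = 1 := by
    rw [hcw, hw, div_mul_div_comm, div_eq_one_iff_eq (mul_ne_zero hm1 hm1)]
    linear_combination -4 * th_sq m
  have hsum : w + (starRingEnd ℂ) w = 2 * (m - 1) / (m + 1) := by
    rw [hcw, hw, ← add_div]
    congr 1
    ring
  have hsum' : w + (starRingEnd ℂ) w = ((2 * (m - 1) / (m + 1) : ℝ) : ℂ) := by
    rw [hsum]
    push_cast
    ring
  have hm3 : (3 : ℝ) ≤ m := by exact_mod_cast hm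
  refine ⟨w, ⟨⟨(m - 1) / (m + 1), 2 / (m + 1), ?_⟩, hww⟩, ?_, ?_, ?_, hsum⟩
  · rw [hw]
    push_cast
    ring
  · intro h
    rw [h, map_one] at hsum'
    have h3 : (1 : ℝ) + 1 = 2 * (m - 1) / (m + 1) := by exact_mod_cast hsum'
    rw [eq_div_iff (by positivity)] at h3
    linarith
  · intro h
    rw [h, map_neg, map_one] at hsum'
    have h3 : (-1 : ℝ) + -1 = 2 * (m - 1) / (m + 1) := by exact_mod_cast hsum'
    rw [eq_div_iff (by positivity)] at h3
    linarith
  · intro h
    have h4 : w + (starRingEnd ℂ) w = -1 := by linear_combination h - hww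
    rw [h4] at hsum'
    have h3 : (-1 : ℝ) = 2 * (m - 1) / (m + 1) := by exact_mod_cast hsum'
    rw [eq_div_iff (by positivity)] at h3
    linarith

theorem repl (hm : 3 ≤ m) {v : ℂ} (hv : UU m v) (F : Finset ℂ) :
    ∃ T : Finset ℂ, (∀ z ∈ T, UU m z) ∧ Disjoint T F ∧ T.card = 5 ∧ ∑ z ∈ T, z = v := by
  classical
  obtain ⟨w, hw, h1, h2, hc, -⟩ := exists_w hm
  obtain ⟨T, hT, hd, hcard, hs⟩ := repl_one (by omega) hw h1 h2 hc (F.image fun z => (starRingEnd ℂ) v * z)
  have hinj : Function.Injective fun z : ℂ => v * z := fun x y h => mul_left_cancel₀ hv.ne_zero h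
  refine ⟨T.image fun z => v * z, ?_, ?_, ?_, ?_⟩
  · intro z hz
    obtain ⟨y, hy, rfl⟩ := Finset.mem_image.1 hz
    exact hv.mul (hT y hy)
  · rw [Finset.disjoint_left]
    intro z hz hzF
    obtain ⟨y, hy, rfl⟩ := Finset.mem_image.1 hz
    refine Finset.disjoint_left.1 hd hy (Finset.mem_image.2 ⟨v * y, hzF, ?_⟩)
    rw [← mul_assoc, mul_comm ((starRingEnd ℂ) v), hv.2, one_mul]
  · rw [Finset.card_image_of_injective _ hinj, hcard]
  · rw [Finset.sum_image fun x _ y _ h => hinj h, ← Finset.mul_sum, hs, mul_one]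

theorem distinct_of_multiset (hm : 3 ≤ m) (s : Multiset ℂ) (hs : ∀ z ∈ s, UU m z) :
    ∃ T : Finset ℂ, (∀ z ∈ T, UU m z) ∧ T.card = 5 * s.card ∧ ∑ z ∈ T, z = s.sum := by
  classical
  induction s using Multiset.induction with
  | empty => exact ⟨∅, by simp, by simp, by simp⟩
  | cons v s ih =>
    obtain ⟨T, hT, hc, hsum⟩ := ih fun z hz => hs z (Multiset.mem_cons_of_mem hz)
    obtain ⟨T', hT', hd, hc', hsum'⟩ := repl hm (hs v (Multiset.mem_cons_self v s)) T
    refine ⟨T' ∪ T, ?_, ?_, ?_⟩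
    · intro z hz
      rcases Finset.mem_union.1 hz with h | h
      · exact hT' z h
      · exact hT z h
    · rw [Finset.card_union_of_disjoint hd, hc, hc', Multiset.card_cons]
      ring
    · rw [Finset.sum_union hd, hsum, hsum', Multiset.sum_cons]

/-- Adding pairs of opposite vectors. -/
theorem add_pairs (hm : 3 ≤ m) (T : Finset ℂ) (hT : ∀ z ∈ T, UU m z) (j : ℕ) :
    ∃ T' : Finset ℂ, (∀ z ∈ T', UU m z) ∧ T'.card = T.card + 2 * j ∧
      ∑ z ∈ T', z = ∑ z ∈ T, z := by
  classical
  induction j with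
  | zero => exact ⟨T, hT, by simp, rfl⟩
  | succ j ih =>
    obtain ⟨T', hT', hc, hs⟩ := ih
    obtain ⟨v, hv, hv2⟩ := ((infinite_UU (m := m) (by omega)).sdiff
      (T'.finite_toSet.union (T'.image Neg.neg).finite_toSet)).nonempty
    have hv' : UU m v := hv
    simp only [Set.mem_union, Finset.mem_coe, Finset.mem_image, not_or, not_exists, not_and] at hv2
    have h1 : -v ∉ T' := fun h => hv2.2 (-v) h (neg_neg v)
    have h2 : v ∉ insert (-v) T' := by
      rw [Finset.mem_insert, not_or]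
      refine ⟨?_, hv2.1⟩
      intro h
      have : (2 : ℂ) * v = 0 := by linear_combination h
      rcases mul_eq_zero.1 this with h3 | h3
      · norm_num at h3
      · exact hv'.ne_zero h3
    refine ⟨insert v (insert (-v) T'), ?_, ?_, ?_⟩
    · intro z hz
      rcases Finset.mem_insert.1 hz with rfl | hz
      · exact hv'
      · rcases Finset.mem_insert.1 hz with rfl | hz
        · exact hv'.neg
        · exact hT' z hz
    · rw [Finset.card_insert_of_notMem h2, Finset.card_insert_of_notMem h1, hc]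
      ring
    · rw [Finset.sum_insert h2, Finset.sum_insert h1, hs]
      ring

/-- The main point: for `m ≡ 3 mod 4` and `n ≥ 5m` there are `n` distinct elements of norm one
of `ℚ(√-m)` with sum zero. -/
theorem exists_sum_zero (hm : m % 4 = 3) {n : ℕ} (hn : 5 * m ≤ n) :
    ∃ T : Finset ℂ, (∀ z ∈ T, UU m z) ∧ T.card = n ∧ ∑ z ∈ T, z = 0 := by
  classical
  have hm3 : 3 ≤ m := by omega
  rcases Nat.even_or_odd n with ⟨j, hj⟩ | hodd
  · obtain ⟨T, h1, h2, h3⟩ := add_pairs hm3 ∅ (by simp) j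
    exact ⟨T, h1, by rw [h2]; simp; omega, by rw [h3]; simp⟩
  · obtain ⟨w, hw, -, -, -, hsum⟩ := exists_w hm3
    obtain ⟨c, hc⟩ : ∃ c, m + 1 = 4 * c := ⟨(m + 1) / 4, by omega⟩
    obtain ⟨k, hk⟩ : ∃ k, m = 2 * k + 1 := ⟨(m - 1) / 2, by omega⟩
    obtain ⟨T, h1, h2, h3⟩ := distinct_of_multiset hm3
      (Multiset.replicate c (-w) + Multiset.replicate c (-(starRingEnd ℂ) w) + Multiset.replicate k 1) (by
        intro z hz
        rw [Multiset.mem_add, Multiset.mem_add] at hz
        rcases hz with (h | h) | h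
        · rw [Multiset.eq_of_mem_replicate h]; exact hw.neg
        · rw [Multiset.eq_of_mem_replicate h]; exact hw.conj.neg
        · rw [Multiset.eq_of_mem_replicate h]; exact UU.one)
    have h4 : T.card = 5 * m := by
      rw [h2]
      simp only [Multiset.card_add, Multiset.card_replicate]
      omega
    have h5 : ∑ z ∈ T, z = 0 := by
      rw [h3]
      simp only [Multiset.sum_add, Multiset.sum_replicate, nsmul_eq_mul, mul_one]
      have hm1 : ((m : ℂ) + 1) ≠ 0 := by
        have : ((m : ℂ) + 1) = ((m + 1 : ℕ) : ℂ) := by push_cast; ring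
        rw [this]
        exact Nat.cast_ne_zero.2 (by omega)
      have e1 : (c : ℂ) = (m + 1) / 4 := by
        have : ((m : ℂ) + 1) = 4 * c := by exact_mod_cast hc
        rw [this]; ring
      have e2 : (k : ℂ) = (m - 1) / 2 := by
        have : (m : ℂ) = 2 * k + 1 := by exact_mod_cast hk
        rw [this]; ring
      have e3 : (c : ℂ) * -w + c * -(starRingEnd ℂ) w + k = -(c * (w + (starRingEnd ℂ) w)) + k := by ring
      rw [e3, hsum, e1, e2]
      field_simp
      ring
    obtain ⟨j, hj⟩ : ∃ j, n = 5 * m + 2 * j := by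
      obtain ⟨i, hi⟩ := hodd
      exact ⟨(n - 5 * m) / 2, by omega⟩
    obtain ⟨T', h6, h7, h8⟩ := add_pairs hm3 T h1 j
    exact ⟨T', h6, by rw [h7, h4, hj], by rw [h8, h5]⟩

end Pool.Agent.R895.Poly
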