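import Mathlib

/-!
# Sums of distinct complex numbers of norm one in an imaginary quadratic field
-/

set_option autoImplicit false

namespace Pool.Agent.R895.Poly

open Complex

/-- The square root of `-m`. -/
noncomputable def th (m : ℕ) : ℂ := (Real.sqrt m : ℂ) * I

theorem th_sq (m : ℕ) : th m * th m = -(m : ℂ) := by
  have h : ((Real.sqrt m : ℝ) : ℂ) * ((Real.sqrt m : ℝ) : ℂ) = (m : ℂ) := by
    rw [← Complex.ofReal_mul, Real.mul_self_sqrt (Nat.cast_nonneg m)]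
    simp
  unfold th
  calc _ = (((Real.sqrt m : ℝ) : ℂ) * ((Real.sqrt m : ℝ) : ℂ)) * (I * I) := by ring
    _ = _ := by rw [h, I_mul_I]; ring

theorem conj_th (m : ℕ) : (starRingEnd ℂ) (th m) = -th m := by
  unfold th
  rw [map_mul, conj_I, conj_ofReal]
  ring

/-- The field `ℚ(√-m)`. -/
def KK (m : ℕ) (z : ℂ) : Prop := ∃ x y : ℚ, z = x + y * th m

/-- The elements of norm one of `ℚ(√-m)`. -/
def UU (m : ℕ) (z : ℂ) : Prop := KK m z ∧ z * (starRingEnd ℂ) z = 1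

variable {m : ℕ}

theorem KK.add {z w : ℂ} (hz : KK m z) (hw : KK m w) : KK m (z + w) := by
  obtain ⟨x, y, rfl⟩ := hz
  obtain ⟨a, b, rfl⟩ := hw
  exact ⟨x + a, y + b, by push_cast; ring⟩

theorem KK.mul {z w : ℂ} (hz : KK m z) (hw : KK m w) : KK m (z * w) := by
  obtain ⟨x, y, rfl⟩ := hz
  obtain ⟨a, b, rfl⟩ := hw
  refine ⟨x * a - m * y * b, x * b + y * a, ?_⟩
  push_cast
  linear_combination (y : ℂ) * b * th_sq m

theorem KK.neg {z : ℂ} (hz : KK m z) : KK m (-z) := by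
  obtain ⟨x, y, rfl⟩ := hz
  exact ⟨-x, -y, by push_cast; ring⟩

theorem KK.sub {z w : ℂ} (hz : KK m z) (hw : KK m w) : KK m (z - w) := by
  rw [sub_eq_add_neg]
  exact hz.add hw.neg

theorem KK.rat (x : ℚ) : KK m (x : ℂ) := ⟨x, 0, by simp⟩

theorem KK.one : KK m (1 : ℂ) := ⟨1, 0, by simp⟩

theorem KK.conj {z : ℂ} (hz : KK m z) : KK m ((starRingEnd ℂ) z) := by
  obtain ⟨x, y, rfl⟩ := hz
  refine ⟨x, -y, ?_⟩
  rw [map_add, map_mul, conj_th]
  simp

theorem KK.inv {z : ℂ} (hz : KK m z) : KK m z⁻¹ := by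
  by_cases h0 : z = 0
  · rw [h0, inv_zero]
    exact ⟨0, 0, by simp⟩
  obtain ⟨x, y, hxy⟩ := hz
  have h1 : z * (starRingEnd ℂ) z = ((x ^ 2 + m * y ^ 2 : ℚ) : ℂ) := by
    rw [hxy, map_add, map_mul, conj_th]
    simp only [map_ratCast]
    push_cast
    linear_combination -(y : ℂ) ^ 2 * th_sq m
  have h2 : z⁻¹ = (starRingEnd ℂ) z * (((x ^ 2 + m * y ^ 2)⁻¹ : ℚ) : ℂ) := by
    have h3 : (starRingEnd ℂ) z ≠ 0 := by
      intro h
      exact h0 ((map_eq_zero _).1 h)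
    have h4 : ((x ^ 2 + m * y ^ 2 : ℚ) : ℂ) ≠ 0 := by
      rw [← h1]
      exact mul_ne_zero h0 h3
    have h5 : (((x ^ 2 + m * y ^ 2)⁻¹ : ℚ) : ℂ) = ((x ^ 2 + m * y ^ 2 : ℚ) : ℂ)⁻¹ := by
      push_cast
      ring
    rw [h5, eq_mul_inv_iff_mul_eq₀ h4, ← h1]
    field_simp
  rw [h2]
  exact (KK.conj ⟨x, y, hxy⟩).mul (KK.rat _)

theorem KK.div {z w : ℂ} (hz : KK m z) (hw : KK m w) : KK m (z / w) := by
  rw [div_eq_mul_inv]
  exact hz.mul hw.inv

theorem UU.mul {z w : ℂ} (hz : UU m z) (hw : UU m w) : UU m (z * w) := by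
  refine ⟨hz.1.mul hw.1, ?_⟩
  rw [map_mul]
  calc _ = (z * (starRingEnd ℂ) z) * (w * (starRingEnd ℂ) w) := by ring
    _ = 1 := by rw [hz.2, hw.2, one_mul]

theorem UU.neg {z : ℂ} (hz : UU m z) : UU m (-z) := by
  refine ⟨hz.1.neg, ?_⟩
  rw [map_neg, neg_mul_neg]
  exact hz.2

theorem UU.conj {z : ℂ} (hz : UU m z) : UU m ((starRingEnd ℂ) z) := by
  refine ⟨hz.1.conj, ?_⟩
  rw [Complex.conj_conj, mul_comm]
  exact hz.2

theorem UU.one : UU m (1 : ℂ) := ⟨KK.one, by simp⟩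

theorem UU.ne_zero {z : ℂ} (hz : UU m z) : z ≠ 0 := by
  intro h
  have := hz.2
  rw [h, zero_mul] at this
  exact zero_ne_one this

theorem UU.norm {z : ℂ} (hz : UU m z) : ‖z‖ = 1 := by
  have h1 := hz.2
  rw [Complex.mul_conj, Complex.normSq_eq_norm_sq] at h1
  have h2 : ‖z‖ ^ 2 = 1 := by exact_mod_cast h1
  nlinarith [norm_nonneg z]

theorem th_ne (hm : m ≠ 0) : th m ≠ 0 := by
  intro h
  have h1 := th_sq m
  rw [h, zero_mul] at h1
  have h2 : (m : ℂ) = 0 := by linear_combination h1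
  exact hm (by exact_mod_cast h2)

/-- The elements `(1 + tθ) / (1 - tθ)`. -/
theorem infinite_UU (hm : m ≠ 0) : {z : ℂ | UU m z}.Infinite := by
  have hd : ∀ t : ℚ, (1 - (t : ℂ) * th m) ≠ 0 ∧ (1 + (t : ℂ) * th m) ≠ 0 := by
    intro t
    have h1 : (1 - (t : ℂ) * th m) * (1 + (t : ℂ) * th m) = ((1 + m * t ^ 2 : ℚ) : ℂ) := by
      push_cast
      linear_combination -(t : ℂ) ^ 2 * th_sq m
    have h2 : ((1 + m * t ^ 2 : ℚ) : ℂ) ≠ 0 := by
      have : (1 + m * t ^ 2 : ℚ) ≠ 0 := by positivity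
      exact_mod_cast this
    rw [← h1] at h2
    exact ⟨left_ne_zero_of_mul h2, right_ne_zero_of_mul h2⟩
  have hinj : Function.Injective fun t : ℚ => (1 + (t : ℂ) * th m) / (1 - (t : ℂ) * th m) := by
    intro t s h
    simp only at h
    rw [div_eq_div_iff (hd t).1 (hd s).1] at h
    have h2 : 2 * th m * ((t : ℂ) - s) = 0 := by linear_combination h
    rcases mul_eq_zero.1 h2 with h3 | h3
    · exact absurd (mul_eq_zero.1 h3) (by simp [th_ne hm])
    · have : (t : ℂ) = s := by linear_combination h3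
      exact_mod_cast this
  refine (Set.infinite_range_of_injective hinj).mono ?_
  rintro _ ⟨t, rfl⟩
  have hc1 : KK m (1 + (t : ℂ) * th m) := ⟨1, t, by simp⟩
  have hc2 : KK m (1 - (t : ℂ) * th m) := ⟨1, -t, by push_cast; ring⟩
  refine ⟨hc1.div hc2, ?_⟩
  rw [map_div₀, map_add, map_sub, map_mul, conj_th, map_one, map_ratCast]
  have h1 := (hd t).1
  have h2 := (hd t).2
  have h3 : (1 - (t : ℂ) * -th m) ≠ 0 := by
    have : (1 - (t : ℂ) * -th m) = 1 + (t : ℂ) * th m := by ring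
    rw [this]; exact h2
  rw [div_mul_div_comm, div_eq_one_iff_eq (mul_ne_zero h1 h3)]
  ring

theorem quad_fin (p q r : ℂ) (h : p ≠ 0 ∨ q ≠ 0) : {a : ℂ | p * a ^ 2 + q * a + r = 0}.Finite := by
  have h1 : (Polynomial.C p * Polynomial.X ^ 2 + Polynomial.C q * Polynomial.X +
      Polynomial.C r : Polynomial ℂ) ≠ 0 := by
    intro h0
    have h2 := congrArg (fun P => Polynomial.coeff P 2) h0
    have h3 := congrArg (fun P => Polynomial.coeff P 1) h0
    simp [Polynomial.coeff_C] at h2 h3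
    rcases h with h | h
    · exact h h2
    · exact h h3
  refine (Polynomial.finite_setOfPred_isRoot h1).subset ?_
  intro a ha
  simpa [Polynomial.IsRoot] using ha

end Pool.Agent.R895.Poly
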